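import Pool.Agent.Lib_helper46.Chrom.NSDefs

/-!
# Section 5.6 of note 1214: the case `|D| ≥ 3`, `|Y| ≥ 2`
-/

open Finset

namespace Pool.Agent.Chrom

set_option linter.unusedSectionVars false

/-- a member crossing a tight face without tight proper subsets meets every component -/
lemma Cross.meet_all {V : Type} [Fintype V] [DecidableEq V] {A : Finset V → Prop}
    {D g C : Finset V} (h : NC A) (hT : Tight A D) (hmin : ∀ X, X ⊂ D → ¬ Tight A X)
    (hc : Cross A D g) (hC : C ∈ comps (gr A) D) : (g ∩ C).Nonempty := by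
  classical
  have hcs := hc.symm h
  have hinj : Set.InjOn (fun d => comp (gr A) g d) (D : Set V) := by
    intro d hd d' hd' heq
    have hd : d ∈ D := hd
    have hd' : d' ∈ D := hd'
    by_contra hne
    have heq' : comp (gr A) g d = comp (gr A) g d' := heq
    have hdg : d ∉ g := Finset.disjoint_left.1 hc.disj hd
    have hK : comp (gr A) g d ∈ comps (gr A) g := comp_mem_comps hdg
    have h2 : 2 ≤ (D ∩ comp (gr A) g d).card := by
      have hsub : ({d, d'} : Finset V) ⊆ D ∩ comp (gr A) g d := by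
        rw [pair_subset_iff]
        refine ⟨mem_inter.2 ⟨hd, self_mem_comp d⟩, mem_inter.2 ⟨hd', ?_⟩⟩
        rw [heq']; exact self_mem_comp d'
      have := card_le_card hsub
      rwa [card_pair hne] at this
    have hm : (D ∩ comp (gr A) g d).Nonempty := card_pos.1 (by omega)
    exact hmin _ (hcs.part_ssub hK hm) (hcs.part_tight h hK h2)
  have h1 : D.card ≤ (meetComps (gr A) g D).card := by
    refine card_le_card_of_injOn _ ?_ hinj
    intro d hd
    have hd : d ∈ D := hd
    have hdg : d ∉ g := Finset.disjoint_left.1 hc.disj hd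
    refine mem_meetComps.2 ⟨comp_mem_comps hdg, ?_⟩
    rw [Finset.not_disjoint_iff]
    exact ⟨d, self_mem_comp d, hd⟩
  have h2 := hcs.card_eq h
  have h3 : (comps (gr A) D).card = D.card := by
    have := hT.zero
    unfold cc kk at this
    omega
  have h4 : meetComps (gr A) D g = comps (gr A) D := by
    refine eq_of_subset_of_card_le (fun E hE => (mem_meetComps.1 hE).1) ?_
    omega
  have h5 : C ∈ meetComps (gr A) D g := by rw [h4]; exact hC
  obtain ⟨_, hnd⟩ := mem_meetComps.1 h5
  rw [Finset.not_disjoint_iff] at hnd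
  obtain ⟨v, hv, hvg⟩ := hnd
  exact ⟨v, mem_inter.2 ⟨hvg, hv⟩⟩

/-- **5.6** -/
theorem ybig (hP : StmtLemmaP) (hM : StmtLemmaM) : StmtYbig := by
  classical
  intro V _ _ A a D f h hcr hcp hB hS hD3 hY2
  set G := gr A with hG
  set C := comp (gr A) D a with hCdef
  have hC : C ∈ comps (gr A) D := comp_mem_comps hB.na
  have hCD : Disjoint C D := comps_disjoint_S hC
  have hDf : Disjoint D f := hS.cross.disj
  set Y := f ∩ C with hYdef
  set Z := univ \ (D ∪ C) with hZdef
  have hmZ : ∀ v, v ∈ Z ↔ v ∉ D ∧ v ∉ C := by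
    intro v
    rw [hZdef]
    simp only [mem_sdiff, mem_univ, mem_union, true_and, not_or]
  have hYne : Y.Nonempty := card_pos.1 (by omega)
  have hYT : Tight A Y := hS.cross.part_tight h hC hY2
  have hfZY : f = Z ∪ Y := by
    ext v
    rw [mem_union, hmZ, hYdef, mem_inter]
    constructor
    · intro hv
      by_cases hvC : v ∈ C
      · exact Or.inr ⟨hv, hvC⟩
      · exact Or.inl ⟨Finset.disjoint_right.1 hDf hv, hvC⟩
    · rintro (⟨h1, h2⟩ | ⟨h1, _⟩)
      · exact hS.zf v h1 h2
      · exact h1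
  -- the crossing member of `Y`
  obtain ⟨g, hg, hYg⟩ := Crossed.cross h hYT (hcr Y hYT)
  have hgY := hYg.symm h
  -- `g` meets `Z`
  obtain ⟨z, hzg, hzZ⟩ : ∃ z ∈ g, z ∈ Z := by
    by_contra hno
    push Not at hno
    have hgf : Disjoint g f := by
      rw [hfZY, disjoint_union_right]
      exact ⟨Finset.disjoint_left.2 hno, hYg.disj.symm⟩
    obtain ⟨u, hu, v, hv, huv⟩ := hgY.exists_not_reachable
    exact not_cross h hg hS.mem (cross_of_not_reachable hgf (hg.qt h) (hS.mem.qt h)
      (mem_inter.1 hu).1 (mem_inter.1 hv).1 huv)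
  have hzD : z ∉ D := ((hmZ z).1 hzZ).1
  have hzC : z ∉ C := ((hmZ z).1 hzZ).2
  -- the outer component of `G - Y`
  obtain ⟨O, hO, hOout, hOin⟩ := hS.cross.outer h hC (T := f) hYne
  have hSne : (g ∩ O).Nonempty := ⟨z, mem_inter.2 ⟨hzg, hOout z hzC⟩⟩
  have hDO : ∀ d ∈ D, d ∈ O := fun d hd => hOout d (Finset.disjoint_right.1 hCD hd)
  have hOY : Disjoint O Y := comps_disjoint_S hO
  have hSface : A (g ∩ O) := hYg.part_face hO hSne
  have hDne : D.Nonempty := card_pos.1 (by omega)
  -- Lemma M
  have hMres : 0 ≤ cc (gr A) ((g ∩ O) ∩ (D ∪ Z)) := by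
    refine hM V (gr A) D Z Y (g ∩ O) ?_ ?_ ?_ ?_ ?_ ?_ ?_ ?_ ?_ ?_
    · rw [Finset.disjoint_right]
      exact fun v hv => ((hmZ v).1 hv).1
    · exact hDf.mono_right inter_subset_left
    · rw [Finset.disjoint_left]
      exact fun v hv hvY => ((hmZ v).1 hv).2 (mem_inter.1 hvY).2
    · intro v hv w hw
      exact hS.zn v ((hmZ v).1 hv).1 ((hmZ v).1 hv).2 w hw
    · intro d hd d' hd' hne
      rw [← hfZY]
      exact hS.sep d hd d' hd' hne
    · intro s hs
      rw [← hfZY]
      by_cases hsZ : s ∈ Z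
      · exact Or.inl hsZ
      right
      have hsO : s ∈ O := (mem_inter.1 hs).2
      by_cases hsD : s ∈ D
      · exact ⟨s, hsD, SimpleGraph.Reachable.refl _⟩
      have hsC : s ∈ C := by
        by_contra hsC
        exact hsZ ((hmZ s).2 ⟨hsD, hsC⟩)
      have hsY : s ∉ Y := Finset.disjoint_left.1 hOY hsO
      have hsf : s ∉ f := fun hsf => hsY (mem_inter.2 ⟨hsf, hsC⟩)
      by_contra hno
      push Not at hno
      have hK : comp (gr A) f s ∈ comps (gr A) f := comp_mem_comps hsf
      have hKD : Disjoint (comp (gr A) f s) D := by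
        rw [Finset.disjoint_left]
        intro d hd hdD
        exact hno d hdD (mem_comp.1 hd).symm
      have hKC : comp (gr A) f s ⊆ C := by
        have h1 := conn_subset_comp (comps_conn hK) hKD (self_mem_comp s)
        rwa [comp_eq_of_mem_comps hC hsC] at h1
      have hKY : comp (gr A) f s ∈ comps (gr A) Y := by
        refine comps_of_comps hK ?_ ?_
        · exact (comps_disjoint_S hK).mono_right inter_subset_left
        · intro u hu v huv hv
          have hvf : v ∈ f := by
            by_contra hvf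
            exact hv (comps_closed hK hu huv hvf)
          have hvD : v ∉ D := Finset.disjoint_right.1 hDf hvf
          exact mem_inter.2 ⟨hvf, comps_closed hC (hKC hu) huv hvD⟩
      have hKO : comp (gr A) f s = O := comps_eq_of_mem hKY hO (self_mem_comp s) hsO
      obtain ⟨d, hd⟩ := hDne
      exact Finset.disjoint_left.1 hKD (by rw [hKO]; exact hDO d hd) hd
    · exact ⟨z, mem_inter.2 ⟨mem_inter.2 ⟨hzg, hOout z hzC⟩, hzZ⟩⟩
    · intro X hX hXne
      exact h.face X (h.down _ _ hX.subset hSface) hXne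
    · exact (hYg.part_zero h hO hSne).ge
    · intro y hy y' hy'
      exact hYg.reach h hO hSne (Finset.disjoint_right.1 hOY hy) (Finset.disjoint_right.1 hOY hy')
  -- the set `S ∩ (D ∪ Z)` has at least two elements
  have hzA : z ∈ (g ∩ O) ∩ (D ∪ Z) :=
    mem_inter.2 ⟨mem_inter.2 ⟨hzg, hOout z hzC⟩, mem_union_right _ hzZ⟩
  have hface : A ((g ∩ O) ∩ (D ∪ Z)) := h.down _ _ inter_subset_left hSface
  have hcard : 2 ≤ ((g ∩ O) ∩ (D ∪ Z)).card := by
    by_contra hlt
    have hle : ((g ∩ O) ∩ (D ∪ Z)).card ≤ 1 := by omega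
    have honly : ∀ w ∈ g, w ∉ C → w = z := by
      intro w hw hwC
      refine card_le_one.1 hle w ?_ z hzA
      refine mem_inter.2 ⟨mem_inter.2 ⟨hw, hOout w hwC⟩, ?_⟩
      by_cases hwD : w ∈ D
      · exact mem_union_left _ hwD
      · exact mem_union_right _ ((hmZ w).2 ⟨hwD, hwC⟩)
    have hDg : Disjoint D g := by
      rw [Finset.disjoint_left]
      intro d hd hdg
      have := honly d hdg (Finset.disjoint_right.1 hCD hd)
      exact hzD (this ▸ hd)
    -- `g` meets `C`
    obtain ⟨c, hcg, hcz⟩ := hYg.exists_other z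
    have hcC : c ∈ C := by
      by_contra hcC
      refine hcz ?_
      rw [honly c hcg hcC]
    have hDgC : Cross A D g := by
      refine cross_of_not_reachable hDg (hB.tight.qt h) (hg.qt h) hcg hzg ?_
      intro hr
      apply hzC
      rw [← comp_eq_of_mem_comps hC hcC, mem_comp]
      exact hr
    -- a second point of `Z`
    have hZ2 : 1 < Z.card := by
      have h1 : Z.card + 1 = D.card := hS.card
      omega
    obtain ⟨z', hz', hne⟩ := Finset.exists_mem_ne hZ2 z
    have hz'D : z' ∉ D := ((hmZ z').1 hz').1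
    have hz'C : z' ∉ C := ((hmZ z').1 hz').2
    have hz'comp : comp (gr A) D z' = {z'} := by
      have hmem : ({z'} : Finset V) ∈ comps (gr A) D := by
        rw [mem_comps_iff]
        refine ⟨conn_singleton z', ?_, ?_⟩
        · rw [disjoint_singleton_left]; exact hz'D
        · intro u hu v huv hv
          rw [mem_singleton] at hu
          subst hu
          exact absurd (hS.zn u hz'D hz'C v huv) hv
      exact comp_eq_of_mem_comps hmem (mem_singleton_self z')
    obtain ⟨w, hw⟩ := hDgC.meet_all h hB.tight hB.min (comp_mem_comps hz'D)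
    rw [hz'comp, mem_inter, mem_singleton] at hw
    exact hne (honly z' (hw.2 ▸ hw.1) hz'C)
  have hTA : Tight A ((g ∩ O) ∩ (D ∪ Z)) :=
    ⟨hface, hcard, le_antisymm (h.face _ hface ⟨z, hzA⟩) hMres⟩
  have hdis : Disjoint ((g ∩ O) ∩ (D ∪ Z)) (comp (gr A) D a) := by
    rw [Finset.disjoint_left]
    intro v hv hvC
    rcases mem_union.1 (mem_inter.1 hv).2 with hvD | hvZ
    · exact Finset.disjoint_left.1 hCD hvC hvD
    · exact ((hmZ v).1 hvZ).2 hvC
  have := hP V A a D _ h hcr hcp hB hTA hdis
  rw [this] at hzA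
  exact hzD hzA

end Pool.Agent.Chrom
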